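import Pool.Agent.H619.FR.St
import Pool.Agent.H619.CS.AFF

set_option autoImplicit false

open MeasureTheory Set

open scoped ENNReal

namespace Pool.Agent.H619.FR

open Pool.Agent.H619.CS

theorem image_hull {E F : Type} [NormedAddCommGroup E] [NormedSpace ℝ E]
    [NormedAddCommGroup F] [NormedSpace ℝ F] (e : E ≃L[ℝ] F) (b : F) (g : E) (K : Set E) :
    convexHull ℝ ((fun x => e x + b) '' K ∪
      (fun x => (2 : ℝ) • (e g + b) - x) '' ((fun x => e x + b) '' K)) =
      (fun x => e x + b) '' convexHull ℝ (K ∪ (fun x => (2 : ℝ) • g - x) '' K) := by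
  let A : E →ᵃ[ℝ] F := (e.toLinearEquiv.toLinearMap.toAffineMap) + AffineMap.const ℝ E b
  have hA : (fun x => e x + b) = (A : E → F) := by
    funext x
    simp [A]
  rw [hA, AffineMap.image_convexHull, image_union, ← hA, image_image, image_image]
  congr 2
  apply image_congr
  intro x _
  rw [map_sub, map_smul, smul_add, two_smul ℝ b]
  abel

theorem afr (aff : S_AFF) : S_AFR := by
  intro E F _ _ _ _ _ _ _ _ _ _ μ _ ν _ e b
  obtain ⟨κ, h0, h1, h2, h3⟩ := aff E F μ ν e b
  refine ⟨κ, h0, h1, h2, ?_⟩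
  intro K hK hne
  unfold refv
  rw [(h3 K hK hne).1, image_hull, h2]

end Pool.Agent.H619.FR
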