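import Pool.Agent.H619.FR.St

/-!
# COV: covering of `conv (S ∪ -S)` by small simplices (helper249, for helper619)
-/

set_option autoImplicit false

open Set

namespace Pool.Agent.H619.FR

namespace COV

variable {n : ℕ} {E : Type} [AddCommGroup E] [Module ℝ E]

/-- coordinates of the points of the convex hull -/
theorem rep (p : Fin (n + 1) → E) :
    convexHull ℝ (range p ∪ range (fun i => - p i)) ⊆
      {x | ∃ γ : Fin (n + 1) → ℝ, ∑ i, |γ i| ≤ 1 ∧ x = ∑ i, γ i • p i} := by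
  have hsingle : ∀ (i : Fin (n + 1)) (c : ℝ), |c| ≤ 1 →
      ∃ γ : Fin (n + 1) → ℝ, ∑ l, |γ l| ≤ 1 ∧ c • p i = ∑ l, γ l • p l := by
    intro i c hc
    refine ⟨Pi.single i c, ?_, ?_⟩
    · rw [Finset.sum_eq_single i]
      · rw [Pi.single_eq_same]; exact hc
      · intro l _ hl
        rw [Pi.single_eq_of_ne hl, abs_zero]
      · intro h; exact absurd (Finset.mem_univ i) h
    · rw [Finset.sum_eq_single i]
      · rw [Pi.single_eq_same]
      · intro l _ hl
        rw [Pi.single_eq_of_ne hl, zero_smul]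
      · intro h; exact absurd (Finset.mem_univ i) h
  refine convexHull_min ?_ ?_
  · rintro x (⟨i, rfl⟩ | ⟨i, rfl⟩)
    · obtain ⟨γ, h1, h2⟩ := hsingle i 1 (by rw [abs_one])
      exact ⟨γ, h1, by rw [← h2, one_smul]⟩
    · obtain ⟨γ, h1, h2⟩ := hsingle i (-1) (by rw [abs_neg, abs_one])
      exact ⟨γ, h1, by rw [← h2, neg_smul, one_smul]⟩
  · rintro x ⟨γ, h1, rfl⟩ y ⟨γ', h2, rfl⟩ a b ha hb hab
    refine ⟨fun i => a * γ i + b * γ' i, ?_, ?_⟩
    · have h3 : ∀ i, |a * γ i + b * γ' i| ≤ a * |γ i| + b * |γ' i| := by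
        intro i
        refine (abs_add_le _ _).trans ?_
        rw [abs_mul, abs_mul, abs_of_nonneg ha, abs_of_nonneg hb]
      refine (Finset.sum_le_sum fun i _ => h3 i).trans ?_
      rw [Finset.sum_add_distrib, ← Finset.mul_sum, ← Finset.mul_sum]
      nlinarith
    · rw [Finset.smul_sum, Finset.smul_sum, ← Finset.sum_add_distrib]
      refine Finset.sum_congr rfl fun i _ => ?_
      rw [add_smul, mul_smul, mul_smul]

/-- the main inequality -/
theorem main_ineq (γ : Fin (n + 1) → ℝ) (j : Fin (n + 1)) (A : Finset (Fin (n + 1)))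
    (hj : j ∉ A) (hA : A.card = n / 2) (h1 : ∀ i ∈ A, γ i ≤ γ j) (h2 : ∀ i, i ∉ A → γ j ≤ γ i) :
    ∑ i, |γ i - γ j| ≤ ∑ i, |γ i| := by
  obtain ⟨c, hc, hc1, hc0⟩ : ∃ c : ℝ, (n : ℝ) - 2 * ((n / 2 : ℕ) : ℝ) + c = 0 ∧ -1 ≤ c ∧ c ≤ 0 := by
    have e1 : 2 * (n / 2) ≤ n := by omega
    have e2 : n ≤ 2 * (n / 2) + 1 := by omega
    have e1' : 2 * ((n / 2 : ℕ) : ℝ) ≤ n := by exact_mod_cast e1
    have e2' : (n : ℝ) ≤ 2 * ((n / 2 : ℕ) : ℝ) + 1 := by exact_mod_cast e2
    exact ⟨2 * ((n / 2 : ℕ) : ℝ) - n, by ring, by linarith, by linarith⟩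
  let ε : Fin (n + 1) → ℝ := fun i => 1 - 2 * (if i ∈ A then 1 else 0) +
    (if i = j then c - 1 else 0)
  have hε0 : ∑ i, ε i = 0 := by
    have e1 : ∑ i, ε i = ∑ _i : Fin (n + 1), (1 : ℝ) - 2 * ∑ i, (if i ∈ A then (1 : ℝ) else 0) +
        ∑ i, (if i = j then c - 1 else 0) := by
      rw [Finset.mul_sum, ← Finset.sum_sub_distrib, ← Finset.sum_add_distrib]
    rw [e1, Finset.sum_ite_eq' Finset.univ j, if_pos (Finset.mem_univ j), Finset.sum_boole,
      Finset.filter_mem_eq_inter, Finset.univ_inter, hA, Finset.sum_const, Finset.card_univ,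
      Fintype.card_fin, nsmul_eq_mul]
    push_cast
    linarith
  have hε : ∀ i, |γ i - γ j| = ε i * (γ i - γ j) := by
    intro i
    by_cases hi : i ∈ A
    · have hij : i ≠ j := fun h => hj (h ▸ hi)
      have : ε i = -1 := by
        show 1 - 2 * (if i ∈ A then (1 : ℝ) else 0) + (if i = j then c - 1 else 0) = -1
        rw [if_pos hi, if_neg hij]
        norm_num
      rw [this, abs_of_nonpos (by linarith [h1 i hi])]
      ring
    · by_cases hij : i = j
      · subst hij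
        rw [sub_self, abs_zero, mul_zero]
      · have : ε i = 1 := by
          show 1 - 2 * (if i ∈ A then (1 : ℝ) else 0) + (if i = j then c - 1 else 0) = 1
          rw [if_neg hi, if_neg hij]
          norm_num
        rw [this, abs_of_nonneg (by linarith [h2 i hi]), one_mul]
  have hε1 : ∀ i, |ε i| ≤ 1 := by
    intro i
    show |1 - 2 * (if i ∈ A then (1 : ℝ) else 0) + (if i = j then c - 1 else 0)| ≤ 1
    by_cases hi : i ∈ A
    · have hij : i ≠ j := fun h => hj (h ▸ hi)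
      rw [if_pos hi, if_neg hij, abs_le]
      constructor <;> norm_num
    · by_cases hij : i = j
      · rw [if_neg hi, if_pos hij, abs_le]
        constructor <;> linarith
      · rw [if_neg hi, if_neg hij, abs_le]
        constructor <;> norm_num
  calc ∑ i, |γ i - γ j| = ∑ i, (ε i * γ i - γ j * ε i) := by
        refine Finset.sum_congr rfl fun i _ => ?_
        rw [hε]
        ring
    _ = ∑ i, ε i * γ i := by
        rw [Finset.sum_sub_distrib, ← Finset.mul_sum, hε0, mul_zero, sub_zero]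
    _ ≤ ∑ i, |γ i| := by
        refine Finset.sum_le_sum fun i _ => ?_
        refine (le_abs_self _).trans ?_
        rw [abs_mul]
        exact mul_le_of_le_one_left (abs_nonneg _) (hε1 i)

/-- the point is in the small simplex -/
theorem mem_Del (p : Fin (n + 1) → E) (hp : ∑ i, p i = 0) (γ : Fin (n + 1) → ℝ) (j : Fin (n + 1))
    (A : Finset (Fin (n + 1))) (hj : j ∉ A) (hA : A.card = n / 2) (h1 : ∀ i ∈ A, γ i ≤ γ j)
    (h2 : ∀ i, i ∉ A → γ j ≤ γ i) (hγ : ∑ i, |γ i| ≤ 1) : ∑ i, γ i • p i ∈ Del p j A := by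
  have hle : ∑ i, |γ i - γ j| ≤ 1 := (main_ineq γ j A hj hA h1 h2).trans hγ
  let w : Fin (n + 1) → ℝ := fun i => |γ i - γ j| + (if i = j then 1 - ∑ l, |γ l - γ j| else 0)
  let q : Fin (n + 1) → E := fun i => if i = j then (0 : E) else if i ∈ A then - p i else p i
  have hw0 : ∀ i ∈ Finset.univ, 0 ≤ w i := by
    intro i _
    show 0 ≤ |γ i - γ j| + (if i = j then 1 - ∑ l, |γ l - γ j| else 0)
    by_cases hij : i = j
    · rw [if_pos hij]
      linarith [abs_nonneg (γ i - γ j)]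
    · rw [if_neg hij, add_zero]
      exact abs_nonneg _
  have hw1 : ∑ i, w i = 1 := by
    have e1 : ∑ i, w i = ∑ i, |γ i - γ j| +
        ∑ i, (if i = j then 1 - ∑ l, |γ l - γ j| else 0) := by
      rw [← Finset.sum_add_distrib]
    rw [e1, Finset.sum_ite_eq' Finset.univ j, if_pos (Finset.mem_univ j)]
    ring
  have hx : ∑ i, γ i • p i = ∑ i, w i • q i := by
    have e1 : ∑ i, γ i • p i = ∑ i, (γ i - γ j) • p i := by
      have e2 : ∑ i, (γ i - γ j) • p i = ∑ i, γ i • p i - γ j • ∑ i, p i := by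
        rw [Finset.smul_sum, ← Finset.sum_sub_distrib]
        refine Finset.sum_congr rfl fun i _ => ?_
        rw [sub_smul]
      rw [e2, hp, smul_zero, sub_zero]
    rw [e1]
    refine Finset.sum_congr rfl fun i _ => ?_
    show (γ i - γ j) • p i = (|γ i - γ j| + (if i = j then 1 - ∑ l, |γ l - γ j| else 0)) •
      (if i = j then (0 : E) else if i ∈ A then - p i else p i)
    by_cases hij : i = j
    · rw [if_pos hij, if_pos hij, smul_zero, hij, sub_self, zero_smul]
    · rw [if_neg hij, if_neg hij, add_zero]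
      by_cases hi : i ∈ A
      · rw [if_pos hi, abs_of_nonpos (by linarith [h1 i hi]), smul_neg, neg_smul, neg_neg]
      · rw [if_neg hi, abs_of_nonneg (by linarith [h2 i hi])]
  rw [hx]
  exact (convex_convexHull ℝ (range q)).sum_mem hw0 hw1 fun i _ =>
    subset_convexHull ℝ _ (mem_range_self i)

end COV

theorem cov : S_COV := by
  intro n E _ _ p hp x hx
  obtain ⟨γ, hγ, rfl⟩ := COV.rep p hx
  let σ := Tuple.sort γ
  have hmono : Monotone (γ ∘ σ) := Tuple.monotone_sort γ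
  let kk : Fin (n + 1) := ⟨n / 2, by omega⟩
  let A : Finset (Fin (n + 1)) := (Finset.Iio kk).map σ.toEmbedding
  have hjA : σ kk ∉ A := by
    intro h
    obtain ⟨i, hi, he⟩ := Finset.mem_map.1 h
    have : i = kk := σ.injective he
    rw [this] at hi
    exact absurd (Finset.mem_Iio.1 hi) (lt_irrefl _)
  have hA : A.card = n / 2 := by
    rw [Finset.card_map, Fin.card_Iio]
  have h1 : ∀ i ∈ A, γ i ≤ γ (σ kk) := by
    intro i hi
    obtain ⟨l, hl, rfl⟩ := Finset.mem_map.1 hi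
    exact hmono (Finset.mem_Iio.1 hl).le
  have h2 : ∀ i, i ∉ A → γ (σ kk) ≤ γ i := by
    intro i hi
    obtain ⟨l, rfl⟩ := σ.surjective i
    have hl : kk ≤ l := by
      by_contra h
      exact hi (Finset.mem_map.2 ⟨l, Finset.mem_Iio.2 (not_le.1 h), rfl⟩)
    exact hmono hl
  rw [mem_iUnion]
  refine ⟨σ kk, ?_⟩
  rw [mem_iUnion₂]
  refine ⟨A, ?_, COV.mem_Del p hp γ (σ kk) A hjA hA h1 h2 hγ⟩
  rw [Finset.mem_powersetCard]
  refine ⟨fun i hi => Finset.mem_erase.2 ⟨fun h => hjA (h ▸ hi), Finset.mem_univ i⟩, hA⟩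

end Pool.Agent.H619.FR
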