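import Pool.Agent.H619.FR.St

/-!
# Partial Steiner symmetrisation does not increase the reflection body about the centroid
-/

set_option autoImplicit false

open MeasureTheory Set

open scoped ENNReal

namespace Pool.Agent.H619.FR

open Pool.Agent.H619.CS

namespace PSR

variable {m : ℕ}

/-- the convex hull of the union of two compact convex sets is compact -/
lemma isCompact_hull_union {E : Type} [NormedAddCommGroup E] [NormedSpace ℝ E] {K L : Set E}
    (hK : IsCompact K) (hL : IsCompact L) (cK : Convex ℝ K) (cL : Convex ℝ L)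
    (nK : K.Nonempty) (nL : L.Nonempty) : IsCompact (convexHull ℝ (K ∪ L)) := by
  rw [cK.convexHull_union cL nK nL]
  have h : convexJoin ℝ K L =
      (fun q : (E × E) × ℝ => (1 - q.2) • q.1.1 + q.2 • q.1.2) '' ((K ×ˢ L) ×ˢ Icc (0 : ℝ) 1) := by
    ext z
    simp only [mem_convexJoin, mem_image, mem_prod, Prod.exists, segment_eq_image]
    constructor
    · rintro ⟨x, hx, y, hy, s, hs, rfl⟩
      exact ⟨x, y, s, ⟨⟨hx, hy⟩, hs⟩, rfl⟩
    · rintro ⟨x, y, s, ⟨⟨hx, hy⟩, hs⟩, rfl⟩
      exact ⟨x, hx, y, hy, s, hs, rfl⟩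
  rw [h]
  exact ((hK.prod hL).prod isCompact_Icc).image (by fun_prop)

/-- a compact convex set of the line is a subset of an interval between two of its points -/
lemma line {T : Set ℝ} (hT : IsCompact T) (hne : T.Nonempty) :
    ∃ a ∈ T, ∃ b ∈ T, T ⊆ Icc a b := by
  obtain ⟨a, ha, ha'⟩ := hT.exists_isLeast hne
  obtain ⟨b, hb, hb'⟩ := hT.exists_isGreatest hne
  exact ⟨a, ha, b, hb, fun x hx => ⟨ha' hx, hb' hx⟩⟩

/-- the comparison of the hulls: chords -/
lemma cover {A A' H : Set (X m)} (t : ℝ) (hH : Convex ℝ H) (hA : A ⊆ H)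
    (h : ∀ x y, (x, y) ∈ A' → ∃ D R : ℝ, 0 ≤ R ∧ |y - t * D| ≤ R ∧ (x, D - R) ∈ A ∧
      (x, D + R) ∈ A) (x : Fin m → ℝ) (y : ℝ) (hxy : (x, y) ∈ convexHull ℝ A') :
    ∃ D R : ℝ, 0 ≤ R ∧ |y - t * D| ≤ R ∧ (x, D - R) ∈ H ∧ (x, D + R) ∈ H := by
  have key : convexHull ℝ A' ⊆ {z : X m | ∃ D R : ℝ, 0 ≤ R ∧ |z.2 - t * D| ≤ R ∧
      (z.1, D - R) ∈ H ∧ (z.1, D + R) ∈ H} := by
    apply convexHull_min
    · rintro ⟨x, y⟩ hz
      obtain ⟨D, R, h0, h1, h2, h3⟩ := h x y hz
      exact ⟨D, R, h0, h1, hA h2, hA h3⟩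
    · rintro ⟨x1, y1⟩ ⟨D1, R1, a0, a1, a2, a3⟩ ⟨x2, y2⟩ ⟨D2, R2, b0, b1, b2, b3⟩ a b ha hb hab
      refine ⟨a * D1 + b * D2, a * R1 + b * R2, by positivity, ?_, ?_, ?_⟩
      · simp only [Prod.smul_mk, Prod.mk_add_mk, smul_eq_mul]
        simp only at a1 b1
        rw [abs_le] at *
        constructor <;> nlinarith
      · have := hH a2 b2 ha hb hab
        have e : a • ((x1, D1 - R1) : X m) + b • ((x2, D2 - R2) : X m) =
            (a • x1 + b • x2, (a * D1 + b * D2) - (a * R1 + b * R2)) := by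
          simp only [Prod.smul_mk, Prod.mk_add_mk, smul_eq_mul]
          congr 1
          ring
        rw [e] at this
        simpa using this
      · have := hH a3 b3 ha hb hab
        have e : a • ((x1, D1 + R1) : X m) + b • ((x2, D2 + R2) : X m) =
            (a • x1 + b • x2, (a * D1 + b * D2) + (a * R1 + b * R2)) := by
          simp only [Prod.smul_mk, Prod.mk_add_mk, smul_eq_mul]
          congr 1
          ring
        rw [e] at this
        simpa using this
  exact key hxy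

/-- comparison of the chords -/
lemma chord {T T' : Set ℝ} (t : ℝ) (ht : |t| ≤ 1) (hT : Convex ℝ T) (hT' : IsCompact T')
    (h : ∀ y ∈ T', ∃ D R : ℝ, 0 ≤ R ∧ |y - t * D| ≤ R ∧ D - R ∈ T ∧ D + R ∈ T) :
    volume T' ≤ volume T := by
  rcases T'.eq_empty_or_nonempty with h0 | h0
  · rw [h0]; simp
  obtain ⟨a, ha, b, hb, hab⟩ := line hT' h0
  obtain ⟨D1, R1, p0, p1, p2, p3⟩ := h a ha
  obtain ⟨D2, R2, q0, q1, q2, q3⟩ := h b hb
  have hle : volume T' ≤ ENNReal.ofReal (b - a) := by
    calc volume T' ≤ volume (Icc a b) := measure_mono hab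
      _ = _ := Real.volume_Icc
  have hsub : ∀ u v, u ∈ T → v ∈ T → ENNReal.ofReal (v - u) ≤ volume T := by
    intro u v hu hv
    rw [← Real.volume_Icc]
    exact measure_mono (hT.ordConnected.out hu hv)
  have hd : t * (D2 - D1) ≤ |D2 - D1| := by
    calc t * (D2 - D1) ≤ |t * (D2 - D1)| := le_abs_self _
      _ = |t| * |D2 - D1| := abs_mul _ _
      _ ≤ 1 * |D2 - D1| := by gcongr
      _ = _ := one_mul _
  have p1' := (abs_le.1 p1).1
  have q1' := (abs_le.1 q1).2
  refine hle.trans ?_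
  rcases abs_cases (D2 - D1) with ⟨hh, _⟩ | ⟨hh, _⟩
  · refine le_trans (ENNReal.ofReal_le_ofReal ?_) (hsub (D1 - R1) (D2 + R2) p2 q3)
    rw [hh] at hd
    nlinarith
  · refine le_trans (ENNReal.ofReal_le_ofReal ?_) (hsub (D2 - R2) (D1 + R1) q2 p3)
    rw [hh] at hd
    nlinarith

end PSR

open PSR in
theorem psr (ps : S_PS) : S_PSR := by
  intro m K K' t ht hK hK' hKc hKc' hne hsl
  have hK0 : K.Nonempty := by
    rw [nonempty_iff_ne_empty]
    rintro rfl
    simp at hne
  obtain ⟨hv, hc, -⟩ := ps m K K' t ht hK hK' hne hsl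
  have hK0' : K'.Nonempty := by
    rw [nonempty_iff_ne_empty]
    rintro rfl
    rw [measure_empty] at hv
    exact hne hv.symm
  unfold refv
  rw [hc]
  set g := cen volume K with hg
  set A : Set (X m) := K ∪ (fun x => (2 : ℝ) • g - x) '' K with hA
  set A' : Set (X m) := K' ∪ (fun x => (2 : ℝ) • ((g.1, t * g.2) : X m) - x) '' K' with hA'
  have hrf : ∀ (b : X m) (L : Set (X m)), Convex ℝ L → Convex ℝ ((fun x => b - x) '' L) := by
    rintro b L hL _ ⟨x, hx, rfl⟩ _ ⟨y, hy, rfl⟩ a a' ha ha' haa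
    refine ⟨a • x + a' • y, hL hx hy ha ha' haa, ?_⟩
    have h1 : b = a • b + a' • b := by rw [← add_smul, haa, one_smul]
    show b - (a • x + a' • y) = a • (b - x) + a' • (b - y)
    rw [smul_sub, smul_sub]
    nth_rewrite 1 [h1]
    abel
  have cA : IsCompact (convexHull ℝ A) :=
    isCompact_hull_union hK (hK.image (by fun_prop)) hKc (hrf _ _ hKc) hK0 (hK0.image _)
  have cA' : IsCompact (convexHull ℝ A') :=
    isCompact_hull_union hK' (hK'.image (by fun_prop)) hKc' (hrf _ _ hKc') hK0' (hK0'.image _)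
  have hcov : ∀ x y, (x, y) ∈ A' → ∃ D R : ℝ, 0 ≤ R ∧ |y - t * D| ≤ R ∧ (x, D - R) ∈ A ∧
      (x, D + R) ∈ A := by
    rintro x y (h | ⟨⟨x', y'⟩, h, he⟩)
    · rcases hsl x with ⟨-, h2⟩ | ⟨c, r, hr, h1, h2⟩
      · exfalso
        have : y ∈ {y : ℝ | (x, y) ∈ K'} := h
        rw [h2] at this
        exact this
      · have hy : y ∈ {y : ℝ | (x, y) ∈ K'} := h
        rw [h2] at hy
        have k1 : c - r ∈ {y : ℝ | (x, y) ∈ K} := by rw [h1]; constructor <;> linarith
        have k2 : c + r ∈ {y : ℝ | (x, y) ∈ K} := by rw [h1]; constructor <;> linarith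
        refine ⟨c, r, hr, ?_, Or.inl k1, Or.inl k2⟩
        rw [abs_le]
        constructor <;> linarith [hy.1, hy.2]
    · simp only [Prod.smul_mk, Prod.mk_sub_mk, smul_eq_mul, Prod.mk.injEq] at he
      obtain ⟨e1, e2⟩ := he
      rcases hsl x' with ⟨-, h2⟩ | ⟨c, r, hr, h1, h2⟩
      · exfalso
        have : y' ∈ {y : ℝ | (x', y) ∈ K'} := h
        rw [h2] at this
        exact this
      · have hy : y' ∈ {y : ℝ | (x', y) ∈ K'} := h
        rw [h2] at hy
        have k1 : (x', c - r) ∈ K := by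
          have : c - r ∈ {y : ℝ | (x', y) ∈ K} := by rw [h1]; constructor <;> linarith
          exact this
        have k2 : (x', c + r) ∈ K := by
          have : c + r ∈ {y : ℝ | (x', y) ∈ K} := by rw [h1]; constructor <;> linarith
          exact this
        refine ⟨2 * g.2 - c, r, hr, ?_, Or.inr ⟨_, k2, ?_⟩, Or.inr ⟨_, k1, ?_⟩⟩
        · rw [abs_le]
          constructor <;> nlinarith [hy.1, hy.2]
        · ext1
          · simpa using e1
          · simp only [Prod.snd_sub, Prod.smul_snd, smul_eq_mul]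
            ring
        · ext1
          · simpa using e1
          · simp only [Prod.snd_sub, Prod.smul_snd, smul_eq_mul]
            ring
  rw [PS.slice_vol cA.measurableSet, PS.slice_vol cA'.measurableSet]
  apply lintegral_mono
  intro x
  apply chord t ht
  · intro y1 h1 y2 h2 a b ha hb hab
    have := (convex_convexHull ℝ A) h1 h2 ha hb hab
    have e : a • ((x, y1) : X m) + b • ((x, y2) : X m) = (x, a • y1 + b • y2) := by
      simp only [Prod.smul_mk, Prod.mk_add_mk, ← add_smul, hab, one_smul]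
    rw [e] at this
    exact this
  · have : IsClosed {y : ℝ | (x, y) ∈ convexHull ℝ A'} :=
      cA'.isClosed.preimage (by fun_prop)
    refine IsCompact.of_isClosed_subset (cA'.image continuous_snd) this ?_
    intro y hy
    exact ⟨(x, y), hy, rfl⟩
  · intro y hy
    exact cover t (convex_convexHull ℝ A) (subset_convexHull ℝ A) hcov x y hy

end Pool.Agent.H619.FR
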