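import Pool.Agent.H619.FR.St
import Pool.Agent.H619.BB.CENS

set_option autoImplicit false

open MeasureTheory Set

open scoped ENNReal

namespace Pool.Agent.H619.FR

open Pool.Agent.H619.CS

namespace SPX

/-- the bound for simplices with centroid `0` -/
theorem centred (cens : BB.S_CENS) (cov : S_COV) (vol : S_VOL) (n : ℕ)
    (p : Fin (n + 1) → EuclideanSpace ℝ (Fin n)) (hp : AffineIndependent ℝ p)
    (h0 : ∑ i, p i = 0) :
    refv volume (convexHull ℝ (range p)) ≤
      ((n.choose (n / 2) : ℕ) : ℝ≥0∞) * volume (convexHull ℝ (range p)) := by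
  have hc : cen volume (convexHull ℝ (range p)) = 0 := by
    rw [cens n p hp, h0, smul_zero]
  have hsub : convexHull ℝ (convexHull ℝ (range p) ∪
      (fun x => (2 : ℝ) • (0 : EuclideanSpace ℝ (Fin n)) - x) '' convexHull ℝ (range p)) ⊆
      convexHull ℝ (range p ∪ range (fun i => - p i)) := by
    apply convexHull_min _ (convex_convexHull ℝ _)
    apply union_subset (convexHull_mono subset_union_left)
    rintro _ ⟨x, hx, rfl⟩
    have h1 : (2 : ℝ) • (0 : EuclideanSpace ℝ (Fin n)) - x = -x := by simp
    show (2 : ℝ) • (0 : EuclideanSpace ℝ (Fin n)) - x ∈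
      convexHull ℝ (range p ∪ range (fun i => - p i))
    rw [h1]
    have h2 : convexHull ℝ (range p) ⊆
        {x | -x ∈ convexHull ℝ (range p ∪ range (fun i => - p i))} := by
      apply convexHull_min
      · rintro _ ⟨i, rfl⟩
        exact subset_convexHull ℝ _ (Or.inr ⟨i, rfl⟩)
      · intro a ha b hb s t hs ht hst
        have := (convex_convexHull ℝ (range p ∪ range (fun i => - p i))) ha hb hs ht hst
        show -(s • a + t • b) ∈ convexHull ℝ (range p ∪ range (fun i => - p i))
        rw [neg_add, ← smul_neg, ← smul_neg]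
        exact this
    exact h2 hx
  unfold refv
  rw [hc]
  have hcard : ∀ j : Fin (n + 1),
      ((Finset.univ.erase j).powersetCard (n / 2)).card = n.choose (n / 2) := by
    intro j
    rw [Finset.card_powersetCard, Finset.card_erase_of_mem (Finset.mem_univ j)]
    simp
  calc volume (convexHull ℝ (convexHull ℝ (range p) ∪
        (fun x => (2 : ℝ) • (0 : EuclideanSpace ℝ (Fin n)) - x) '' convexHull ℝ (range p)))
      ≤ volume (⋃ j : Fin (n + 1), ⋃ A ∈ (Finset.univ.erase j).powersetCard (n / 2),
          Del p j A) := measure_mono (hsub.trans (cov n _ p h0))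
    _ ≤ ∑ j : Fin (n + 1), volume (⋃ A ∈ (Finset.univ.erase j).powersetCard (n / 2),
          Del p j A) := measure_iUnion_fintype_le _ _
    _ ≤ ∑ j : Fin (n + 1), ∑ A ∈ (Finset.univ.erase j).powersetCard (n / 2),
          volume (Del p j A) :=
        Finset.sum_le_sum fun j _ => measure_biUnion_finset_le _ _
    _ = ∑ j : Fin (n + 1), ∑ A ∈ (Finset.univ.erase j).powersetCard (n / 2),
          volume (convexHull ℝ (range p)) / ((n + 1 : ℕ) : ℝ≥0∞) := by
        refine Finset.sum_congr rfl fun j _ => Finset.sum_congr rfl fun A _ => ?_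
        rw [ENNReal.eq_div_iff (by simp) (ENNReal.natCast_ne_top _)]
        exact vol n p hp h0 j A
    _ = ((n.choose (n / 2) : ℕ) : ℝ≥0∞) * volume (convexHull ℝ (range p)) := by
        simp only [Finset.sum_const, hcard, Finset.card_univ, Fintype.card_fin, nsmul_eq_mul]
        rw [mul_left_comm, ENNReal.mul_div_cancel (by simp) (ENNReal.natCast_ne_top _)]

end SPX

theorem spx (cens : BB.S_CENS) (afr : S_AFR) (cov : S_COV) (vol : S_VOL) : S_SPX := by
  intro n v hv
  set c : EuclideanSpace ℝ (Fin n) := ((n : ℝ) + 1)⁻¹ • ∑ i, v i with hc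
  set p : Fin (n + 1) → EuclideanSpace ℝ (Fin n) := fun i => v i - c with hp
  have hp0 : ∑ i, p i = 0 := by
    rw [hp, Finset.sum_sub_distrib, Finset.sum_const, Finset.card_univ, Fintype.card_fin, hc,
      ← Nat.cast_smul_eq_nsmul ℝ, smul_smul]
    push_cast
    rw [mul_inv_cancel₀ (by positivity), one_smul, sub_self]
  have hpa : AffineIndependent ℝ p := by
    have h1 := hv.map' (AffineEquiv.constVAdd ℝ _ (-c)).toAffineMap
      (AffineEquiv.constVAdd ℝ _ (-c)).injective
    have h2 : (AffineEquiv.constVAdd ℝ (EuclideanSpace ℝ (Fin n)) (-c)).toAffineMap ∘ v = p := by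
      funext i
      simp [hp, sub_eq_add_neg, add_comm]
    rwa [h2] at h1
  have hcomp : IsCompact (convexHull ℝ (range p)) := (finite_range p).isCompact_convexHull ℝ
  have htop : affineSpan ℝ (range p) = ⊤ := by
    rw [hpa.affineSpan_eq_top_iff_card_eq_finrank_add_one]
    simp
  have hpos : volume (convexHull ℝ (range p)) ≠ 0 := by
    have h1 : (interior (convexHull ℝ (range p))).Nonempty :=
      interior_convexHull_nonempty_iff_affineSpan_eq_top.2 htop
    have h2 : 0 < volume (interior (convexHull ℝ (range p))) := isOpen_interior.measure_pos _ h1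
    exact (h2.trans_le (measure_mono interior_subset)).ne'
  obtain ⟨κ, -, -, k1, k2⟩ := afr (EuclideanSpace ℝ (Fin n)) (EuclideanSpace ℝ (Fin n)) volume
    volume (ContinuousLinearEquiv.refl ℝ _) c
  have himg : (fun x => (ContinuousLinearEquiv.refl ℝ (EuclideanSpace ℝ (Fin n))) x + c) ''
      convexHull ℝ (range p) = convexHull ℝ (range v) := by
    have hA : (fun x => (ContinuousLinearEquiv.refl ℝ (EuclideanSpace ℝ (Fin n))) x + c) =
        ((AffineEquiv.constVAdd ℝ (EuclideanSpace ℝ (Fin n)) c).toAffineMap :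
          EuclideanSpace ℝ (Fin n) → EuclideanSpace ℝ (Fin n)) := by
      funext x
      simp [add_comm]
    rw [hA, AffineMap.image_convexHull, ← range_comp]
    congr 2
    funext i
    simp [hp]
  have h3 := k2 _ hcomp hpos
  have h4 := k1 (convexHull ℝ (range p))
  rw [himg] at h3 h4
  rw [h3, h4, mul_left_comm]
  exact mul_le_mul_right (SPX.centred cens cov vol n p hpa hp0) κ

end Pool.Agent.H619.FR
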