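import Pool.Agent.H619.FR.St
import Pool.Agent.H619.CS.STEP

set_option autoImplicit false

open MeasureTheory Set

open scoped ENNReal

namespace Pool.Agent.H619.FR

open Pool.Agent.H619.CS

theorem str (aff : S_AFR) (ps : S_PS) (psr : S_PSR) (sl : S_SL) : S_STR := by
  intro ι E _ _ _ _ _ _ _ μ _ v c U l hl0 hl1 hc hcompl hU
  obtain ⟨m, e, heU, heD⟩ := STEP.exists_equiv (vectorSpan ℝ (range v)) U hU hcompl
  have hv : ∀ i, (e (v i - c)).2 = 0 := by
    intro i
    apply heD
    have h1 : v i ∈ affineSpan ℝ (range v) := subset_affineSpan ℝ _ ⟨i, rfl⟩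
    have := AffineSubspace.vsub_mem_direction h1 hc
    rwa [direction_affineSpan] at this
  have him := STEP.image_PP e v c U heU hv
  set v' : ι → (Fin m → ℝ) := fun i => (e (v i - c)).1 with hv'
  haveI : (volume : Measure (X m)).IsAddHaarMeasure := by
    rw [Measure.volume_eq_prod]
    infer_instance
  obtain ⟨κ, hκ0, hκt, hκ1, hκ2⟩ := aff E (X m) μ (volume : Measure (X m)) e (-(e c))
  have hcomp : ∀ l, IsCompact (PP v c U l) := by
    intro l
    apply Set.Finite.isCompact_convexHull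
    exact (Set.finite_range v).union ((Set.finite_singleton _).insert _)
  have hcompK : ∀ l, IsCompact (KK v' l) := by
    intro l
    apply Set.Finite.isCompact_convexHull
    exact (Set.finite_range _).union ((Set.finite_singleton _).insert _)
  have hpos : μ (PP v c U 0) ≠ 0 := by
    have h1 : (interior (PP v c U 0)).Nonempty := by
      rw [PP, interior_convexHull_nonempty_iff_affineSpan_eq_top]
      exact STEP.span_top v c U hcompl
    have h2 : 0 < μ (interior (PP v c U 0)) := isOpen_interior.measure_pos μ h1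
    exact (h2.trans_le (measure_mono interior_subset)).ne'
  have hposK : (volume : Measure (X m)) (KK v' 0) ≠ 0 := by
    rw [← him 0, hκ1]
    exact mul_ne_zero hκ0 hpos
  have hsl : ∀ x : Fin m → ℝ, ({y : ℝ | (x, y) ∈ KK v' 0} = ∅ ∧ {y : ℝ | (x, y) ∈ KK v' l} = ∅) ∨
      ∃ c r : ℝ, 0 ≤ r ∧ {y : ℝ | (x, y) ∈ KK v' 0} = Icc (c - r) (c + r) ∧
        {y : ℝ | (x, y) ∈ KK v' l} = Icc ((1 - 2 * l) * c - r) ((1 - 2 * l) * c + r) := by
    intro x
    rcases sl ι m v' x with h | ⟨S, hS, h⟩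
    · left
      exact ⟨h 0 le_rfl zero_le_one, h l hl0 hl1⟩
    · right
      refine ⟨S / 2, S / 2, by linarith, ?_, ?_⟩
      · rw [h 0 le_rfl zero_le_one]
        congr 1 <;> ring
      · rw [h l hl0 hl1]
        congr 1 <;> ring
  have habs : |1 - 2 * l| ≤ 1 := by rw [abs_le]; constructor <;> linarith
  obtain ⟨h1, -, -⟩ := ps m (KK v' 0) (KK v' l) (1 - 2 * l) habs (hcompK 0) (hcompK l) hposK hsl
  have h3 := psr m (KK v' 0) (KK v' l) (1 - 2 * l) habs (hcompK 0) (hcompK l)
    (convex_convexHull ℝ _) (convex_convexHull ℝ _) hposK hsl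
  have hvol : μ (PP v c U l) = μ (PP v c U 0) := by
    rw [← him l, ← him 0, hκ1, hκ1] at h1
    exact (ENNReal.mul_right_inj hκ0 hκt).1 h1
  refine ⟨hvol, ?_⟩
  have hpos' : μ (PP v c U l) ≠ 0 := by rw [hvol]; exact hpos
  rw [← him l, ← him 0, hκ2 _ (hcomp l) hpos', hκ2 _ (hcomp 0) hpos] at h3
  exact (ENNReal.mul_le_mul_iff_right hκ0 hκt).1 h3

end Pool.Agent.H619.FR
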