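import Pool.Agent.H619.CS.PS

/-!
# Project FR (MP_725e58_gt): reflection bodies about the centroid, polytopes with at most `n + 2` vertices

Statements `S_X : Prop` with complete paper proofs in the docstrings. Uses the definitions `cen`, `X`,
`PP`, `KK` of `Pool.Agent.H619.CS.St`.
-/

set_option autoImplicit false

open MeasureTheory Set

open scoped ENNReal

namespace Pool.Agent.H619.FR

open Pool.Agent.H619.CS

/-- the volume of the reflection body of `K` about its centroid -/
noncomputable def refv {E : Type} [NormedAddCommGroup E] [NormedSpace ℝ E] [MeasurableSpace E]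
    (μ : Measure E) (K : Set E) : ℝ≥0∞ :=
  μ (convexHull ℝ (K ∪ (fun x => (2 : ℝ) • cen μ K - x) '' K))

/-- the simplex with vertices `0` (for `i = j`), `- p i` (`i ∈ A`), `p i` (otherwise) -/
def Del {n : ℕ} {E : Type} [AddCommGroup E] [Module ℝ E] (p : Fin (n + 1) → E) (j : Fin (n + 1))
    (A : Finset (Fin (n + 1))) : Set E :=
  convexHull ℝ (range (fun i => if i = j then (0 : E) else if i ∈ A then - p i else p i))

/-- COV. Covering of `conv (S ∪ -S)` by `(n + 1) * choose n (n/2)` simplices. Proof: let `x` be in the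
convex hull. Then `x = ∑ γ i • p i` with `∑ |γ i| ≤ 1` (the set of these `x` is convex and contains
all `p i`, `- p i`). Let `k = n / 2` and sort: `σ` a permutation such that `γ ∘ σ` is monotone
(`Tuple.sort`), `j = σ k`, `A = {σ i | i < k}`; so `|A| = k`, `j ∉ A`, `γ i ≤ γ j` for `i ∈ A` and
`γ i ≥ γ j` for `i ∉ A`. Put `δ i = γ i - γ j`; as `∑ p i = 0`, `x = ∑ δ i • p i`. With
`B = univ \ (A ∪ {j})`, `|B| = n - k`, `∑ |δ i| = ∑_B γ - ∑_A γ - (|B| - |A|) γ j`, and
`|B| - |A| = n - 2 k` is `0` or `1`; hence `∑ |δ i| ≤ ∑ |γ i| ≤ 1` in both cases. So `x` is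
`∑_{i ≠ j} |δ i| • (∓ p i) + (1 - ∑ |δ i|) • 0`, an element of `Del p j A`
(for `i ∈ A`: `δ i • p i = |δ i| • (- p i)`, otherwise `δ i • p i = |δ i| • p i`). -/
def S_COV : Prop :=
  ∀ (n : ℕ) (E : Type) [AddCommGroup E] [Module ℝ E] (p : Fin (n + 1) → E), ∑ i, p i = 0 →
    convexHull ℝ (range p ∪ range (fun i => - p i)) ⊆
      ⋃ j : Fin (n + 1), ⋃ A ∈ (Finset.univ.erase j).powersetCard (n / 2), Del p j A

/-- VOL. Volume of the simplices `Del p j A`. Proof: the `n` vectors `p i`, `i ≠ j`, are linearly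
independent, so a basis `b` of the space (as `∑ p i = 0`, `p j` is a combination of them; a
linear dependence of them gives an affine dependence of the `p i`: if `∑_{i ≠ j} a i • p i = 0`
subtract `(∑ a)/(n+1)` times `∑ p i = 0`, all coefficients must vanish, the coefficient of `p j` is
`- (∑ a)/(n+1)`, so all `a i = 0`; or use `affineIndependent_iff_linearIndependent_vsub`).
`Del p j A` is the image of `D = convexHull {0, b i}` under the linear map `b i ↦ ± b i` with
determinant `± 1`, and `convexHull (range p)` is the translate by `p j` of the image of `D` under the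
linear map `M : b i ↦ b i - p j = b i + ∑ k, b k` with determinant `n + 1`
(`det (1 + 1 1ᵀ) = 1 + n`, matrix determinant lemma
`Matrix.det_one_add_replicateCol_mul_replicateRow` or similar). Now
`MeasureTheory.Measure.addHaar_image_linearMap` and translation invariance. For `n = 0` both sides
are equal (all sets are the one point space `{0}`). -/
def S_VOL : Prop :=
  ∀ (n : ℕ) (p : Fin (n + 1) → EuclideanSpace ℝ (Fin n)), AffineIndependent ℝ p → ∑ i, p i = 0 →
    ∀ (j : Fin (n + 1)) (A : Finset (Fin (n + 1))),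
      ((n + 1 : ℕ) : ℝ≥0∞) * volume (Del p j A) = volume (convexHull ℝ (range p))

/-- SPX (from COV, VOL). Simplices. Proof: the centroid of a simplex is the mean of its vertices
(`Pool.Agent.H619.BB.CENS`); translate it to `0`; union bound with COV and VOL, the number of pairs
`(j, A)` is `(n + 1) * choose n (n / 2)`. -/
def S_SPX : Prop :=
  ∀ (n : ℕ) (v : Fin (n + 1) → EuclideanSpace ℝ (Fin n)), AffineIndependent ℝ v →
    refv volume (convexHull ℝ (range v)) ≤
      ((n.choose (n / 2) : ℕ) : ℝ≥0∞) * volume (convexHull ℝ (range v))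

/-- PS for the reflection body. -/
def S_PSR : Prop :=
  ∀ (m : ℕ) (K K' : Set (X m)) (t : ℝ), |t| ≤ 1 → IsCompact K → IsCompact K' →
    Convex ℝ K → Convex ℝ K' → (volume : Measure (X m)) K ≠ 0 →
    (∀ x : Fin m → ℝ, ({y : ℝ | (x, y) ∈ K} = ∅ ∧ {y : ℝ | (x, y) ∈ K'} = ∅) ∨
      ∃ c r : ℝ, 0 ≤ r ∧ {y : ℝ | (x, y) ∈ K} = Icc (c - r) (c + r) ∧
        {y : ℝ | (x, y) ∈ K'} = Icc (t * c - r) (t * c + r)) →
    refv (volume : Measure (X m)) K' ≤ refv (volume : Measure (X m)) K

/-- AFF for the reflection body. -/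
def S_AFR : Prop :=
  ∀ (E F : Type) [NormedAddCommGroup E] [NormedSpace ℝ E] [MeasurableSpace E] [BorelSpace E]
    [FiniteDimensional ℝ E] [NormedAddCommGroup F] [NormedSpace ℝ F] [MeasurableSpace F]
    [BorelSpace F] [FiniteDimensional ℝ F] (μ : Measure E) [μ.IsAddHaarMeasure] (ν : Measure F)
    [ν.IsAddHaarMeasure] (e : E ≃L[ℝ] F) (b : F),
    ∃ κ : ℝ≥0∞, κ ≠ 0 ∧ κ ≠ ⊤ ∧ (∀ S : Set E, ν ((fun x => e x + b) '' S) = κ * μ S) ∧
      ∀ K : Set E, IsCompact K → μ K ≠ 0 →
        refv ν ((fun x => e x + b) '' K) = κ * refv μ K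

/-- STEP for the reflection body. -/
def S_STR : Prop :=
  ∀ (ι E : Type) [Finite ι] [Nonempty ι] [NormedAddCommGroup E] [NormedSpace ℝ E]
    [MeasurableSpace E] [BorelSpace E] [FiniteDimensional ℝ E] (μ : Measure E)
    [μ.IsAddHaarMeasure] (v : ι → E) (c U : E) (l : ℝ), 0 ≤ l → l ≤ 1 →
    c ∈ affineSpan ℝ (range v) → IsCompl (vectorSpan ℝ (range v)) (Submodule.span ℝ {U}) →
    U ≠ 0 →
    μ (PP v c U l) = μ (PP v c U 0) ∧ refv μ (PP v c U l) ≤ refv μ (PP v c U 0)

/-- IND for the reflection body. -/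
def S_INR : Prop :=
  ∀ (n : ℕ) (w : Fin (n + 2) → EuclideanSpace ℝ (Fin n)),
    (interior (convexHull ℝ (range w))).Nonempty →
    refv volume (convexHull ℝ (range w)) ≤
      ((n.choose (n / 2) : ℕ) : ℝ≥0∞) * volume (convexHull ℝ (range w))

end Pool.Agent.H619.FR
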