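import Pool.Agent.H619.FR.St

set_option autoImplicit false

open MeasureTheory Set

open scoped ENNReal Pointwise

namespace Pool.Agent.H619.FR

namespace VOL

variable {n : ℕ}

/-- the points `p i`, `i ≠ j`, are linearly independent -/
lemma lin (p : Fin (n + 1) → EuclideanSpace ℝ (Fin n)) (hp : AffineIndependent ℝ p)
    (hs : ∑ i, p i = 0) (j : Fin (n + 1)) :
    LinearIndependent ℝ (fun k : Fin n => p (j.succAbove k)) := by
  rw [Fintype.linearIndependent_iff]
  intro g hg
  set c : ℝ := (∑ k, g k) / (n + 1 : ℝ) with hc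
  have hn : (n + 1 : ℝ) ≠ 0 := by positivity
  have hc' : (n + 1 : ℝ) * c = ∑ k, g k := by
    rw [hc]
    field_simp
  obtain ⟨w, hwj, hwk⟩ : ∃ w : Fin (n + 1) → ℝ, w j = -c ∧ ∀ k, w (j.succAbove k) = g k - c :=
    ⟨j.insertNth (-c) (fun k => g k - c), by simp, fun k => by simp⟩
  have h1 : Finset.univ.sum w = 0 := by
    rw [Fin.sum_univ_succAbove _ j, hwj]
    simp only [hwk, Finset.sum_sub_distrib, Finset.sum_const, Finset.card_univ, Fintype.card_fin,
      nsmul_eq_mul]
    linarith
  have h2 : ∑ e, w e • p e = 0 := by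
    rw [Fin.sum_univ_succAbove _ j, hwj]
    simp only [hwk, sub_smul, Finset.sum_sub_distrib]
    rw [hg, ← Finset.smul_sum]
    have h3 : ∑ k : Fin n, p (j.succAbove k) = - p j := by
      rw [Fin.sum_univ_succAbove _ j] at hs
      exact eq_neg_of_add_eq_zero_right hs
    rw [h3]
    simp
  have h4 := (affineIndependent_iff.1 hp) Finset.univ w h1 h2
  have h5 : c = 0 := by
    have := h4 j (Finset.mem_univ _)
    rw [hwj] at this
    linarith
  intro k
  have := h4 (j.succAbove k) (Finset.mem_univ _)
  rw [hwk, h5] at this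
  linarith

end VOL

theorem vol : S_VOL := by
  intro n p hp hs j A
  have hlin := VOL.lin p hp hs j
  let b : Module.Basis (Fin n) ℝ (EuclideanSpace ℝ (Fin n)) :=
    basisOfLinearIndependentOfCardEqFinrank' (fun k : Fin n => p (j.succAbove k)) hlin (by simp)
  have hb : ∀ k, b k = p (j.succAbove k) := by
    intro k
    simp [b]
  have hpj : p j = - ∑ k, b k := by
    rw [Fin.sum_univ_succAbove _ j] at hs
    rw [eq_neg_of_add_eq_zero_left hs]
    simp only [hb]
  let q : Fin (n + 1) → EuclideanSpace ℝ (Fin n) := fun i => if i = j then 0 else p i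
  have hqj : q j = 0 := by simp [q]
  have hqk : ∀ k, q (j.succAbove k) = b k := by
    intro k
    simp [q, hb, Fin.succAbove_ne]
  -- the sign change
  let L : EuclideanSpace ℝ (Fin n) →ₗ[ℝ] EuclideanSpace ℝ (Fin n) :=
    b.constr ℝ (fun k => if j.succAbove k ∈ A then - b k else b k)
  have hL : ∀ k, L (b k) = if j.succAbove k ∈ A then - b k else b k := by
    intro k
    simp only [L, b.constr_basis]
  have hLL : L.comp L = LinearMap.id := by
    refine b.ext fun k => ?_
    rw [LinearMap.comp_apply, hL]
    by_cases h : j.succAbove k ∈ A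
    · rw [if_pos h, map_neg, hL, if_pos h]
      simp
    · rw [if_neg h, hL, if_neg h]
      simp
  have hdL : |LinearMap.det L| = 1 := by
    have h1 : LinearMap.det L * LinearMap.det L = 1 := by
      rw [← LinearMap.det_comp, hLL, LinearMap.det_id]
    have h2 : |LinearMap.det L| * |LinearMap.det L| = 1 := by
      rw [← abs_mul, h1, abs_one]
    nlinarith [abs_nonneg (LinearMap.det L)]
  have hDel : Del p j A = L '' (convexHull ℝ (range q)) := by
    rw [LinearMap.image_convexHull, ← range_comp]
    unfold Del
    congr 2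
    funext i
    rcases Fin.eq_self_or_eq_succAbove j i with h | ⟨k, h⟩
    · subst h
      simp [hqj]
    · subst h
      simp only [Function.comp_apply]
      rw [if_neg (Fin.succAbove_ne j k), hqk, hL]
      simp only [hb]
  -- the other map
  let N : Matrix (Fin n) (Fin n) ℝ :=
    1 + Matrix.replicateCol Unit (fun _ => (1 : ℝ)) * Matrix.replicateRow Unit (fun _ => (1 : ℝ))
  let M : EuclideanSpace ℝ (Fin n) →ₗ[ℝ] EuclideanSpace ℝ (Fin n) := Matrix.toLin b b N
  have hdM : LinearMap.det M = 1 + n := by
    rw [LinearMap.det_toLin, Matrix.det_one_add_replicateCol_mul_replicateRow]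
    simp [dotProduct]
  have hM : ∀ k, M (b k) = b k - p j := by
    intro k
    rw [Matrix.toLin_self, hpj]
    have : ∀ i, N i k = (if i = k then 1 else 0) + 1 := by
      intro i
      simp [N, Matrix.add_apply, Matrix.one_apply, Matrix.mul_apply]
    simp only [this, add_smul, Finset.sum_add_distrib, ite_smul, one_smul, zero_smul,
      Finset.sum_ite_eq', Finset.mem_univ, if_true]
    simp [sub_eq_add_neg]
  have hMi : M '' (convexHull ℝ (range q)) = (- p j) +ᵥ convexHull ℝ (range p) := by
    rw [LinearMap.image_convexHull, ← range_comp, ← convexHull_vadd]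
    congr 1
    ext x
    constructor
    · rintro ⟨i, rfl⟩
      refine ⟨p i, ⟨i, rfl⟩, ?_⟩
      rcases Fin.eq_self_or_eq_succAbove j i with h | ⟨k, h⟩
      · subst h
        simp [hqj]
      · subst h
        simp only [Function.comp_apply]
        rw [hqk, hM, hb]
        simp [sub_eq_add_neg, add_comm]
    · rintro ⟨y, ⟨i, rfl⟩, rfl⟩
      refine ⟨i, ?_⟩
      rcases Fin.eq_self_or_eq_succAbove j i with h | ⟨k, h⟩
      · subst h
        simp [hqj]
      · subst h
        simp only [Function.comp_apply]
        rw [hqk, hM, hb]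
        simp [sub_eq_add_neg, add_comm]
  have h1 : volume (Del p j A) = volume (convexHull ℝ (range q)) := by
    rw [hDel, Measure.addHaar_image_linearMap, hdL]
    simp
  have h2 : volume (convexHull ℝ (range p)) =
      ((n + 1 : ℕ) : ℝ≥0∞) * volume (convexHull ℝ (range q)) := by
    have h3 : volume ((- p j) +ᵥ convexHull ℝ (range p)) = volume (convexHull ℝ (range p)) :=
      measure_vadd _ _ _
    rw [← h3, ← hMi, Measure.addHaar_image_linearMap, hdM]
    congr 1
    rw [abs_of_nonneg (by positivity)]
    rw [show (1 + (n : ℝ)) = ((n + 1 : ℕ) : ℝ) by push_cast; ring]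
    exact ENNReal.ofReal_natCast _
  rw [h1, h2]

end Pool.Agent.H619.FR
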